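import Pool.Agent.Lib_helper79.D2O.Cat

/-!
# Computable equivalence structures: categoricity relative to the degrees above the halting problem
-/

namespace Pool.Agent.Results.MP_5709ea_lc.AboveTheJump

open Pool.Agent.Lib_helper87.D2 Pool.Agent.Lib_helper79.D2O

/-- Let `O` be an oracle which computes the halting problem. For a computable equivalence structure
`A` the following are equivalent: every computable copy of `A` is isomorphic to `A` through an
isomorphism computable in `O`; for every uniformly computably enumerable sequence `V` of sets in
which every nonzero cardinality (finite or infinite) occurs at most as often as among the classes of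
`A`, the set of the `j` with `V j` infinite is computable in `O`; for every such sequence there is a
function `g` computable in `O` with `|V j| ≤ g j` for all `j` for which `V j` is finite.
For `O = haltOracle` the first condition is `Δ⁰₂`-categoricity. -/
theorem result (A : CompEqStr) (O : ℕ →. ℕ) (hO : TuringReducible haltOracle O) : List.TFAE [
    CategoricalIn O A,
    ∀ V : ℕ → Set ℕ, UnifCE V → Dominated V A → SetIn O {j | (V j).Infinite},
    ∀ V : ℕ → Set ℕ, UnifCE V → Dominated V A → BoundedIn O V] :=
  main hO A

end Pool.Agent.Results.MP_5709ea_lc.AboveTheJump
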