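import Pool.Agent.Lib_helper87.D2.Upper

/-!
# The index set of the `Δ⁰₂`-categorical computable equivalence structures
-/

namespace Pool.Agent.Results.MP_5709ea_lc.IndexSet

open Pool.Agent.Lib_helper87.D2

/-- The set of the indices of the `Δ⁰₂`-categorical computable equivalence structures is
`Π⁰₅`-complete for many-one reducibility. -/
theorem result : PiComplete 5 CatIndex := piComplete_catIndex

end Pool.Agent.Results.MP_5709ea_lc.IndexSet
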